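import Pool.Agent.H98.SD.Targets
import Pool.Agent.H7.HD.All

/-!
Row EQV of the board sd2: equality up to a null set is an equivalence.
-/

set_option autoImplicit false

open Ordinal Cardinal Order Set
open scoped ZFSet

universe u

namespace Pool.Agent.H90.SD

open _root_.HD _root_.HD.SD

theorem pos_mono {μ ρ : Ordinal.{u}} {X Y : Set Ordinal.{u}} (h : X ⊆ Y) (hX : Pos μ ρ X) :
    Pos μ ρ Y := by
  intro C hC
  obtain ⟨b, h1, h2, h3, h4⟩ := hX C hC
  exact ⟨b, h1, h2, h h3, h4⟩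

theorem not_pos_empty {μ ρ : Ordinal.{u}} (hρ : ℵ₀ < ρ.cof) : ¬ Pos μ ρ (∅ : Set Ordinal.{u}) := by
  intro h
  have hlim : IsSuccLimit ρ := Ordinal.one_lt_cof_iff.1 (Cardinal.one_lt_aleph0.trans hρ)
  have hC : Clb ρ Set.univ :=
    ⟨fun a ha => ⟨Order.succ a, hlim.succ_lt ha, Order.lt_succ a, trivial⟩,
      fun _ _ _ _ => trivial⟩
  obtain ⟨b, -, -, h3, -⟩ := h _ hC
  exact h3

theorem not_pos_union {μ ρ : Ordinal.{u}} (hρ : ℵ₀ < ρ.cof) {X Y : Set Ordinal.{u}}
    (hX : ¬ Pos μ ρ X) (hY : ¬ Pos μ ρ Y) : ¬ Pos μ ρ (X ∪ Y) := by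
  classical
  have hc : (2 : Ordinal.{u}).card < ρ.cof := by
    refine lt_trans ?_ hρ
    rw [Ordinal.card_ofNat]
    exact Cardinal.ofNat_lt_aleph0
  have h := _root_.HD.All.va μ ρ hρ 2 hc (fun i => if i = 0 then X else Y) (fun i _ => by
    by_cases h0 : i = 0
    · simpa only [h0, if_true] using hX
    · simpa only [h0, if_false] using hY)
  intro hp
  refine h (pos_mono ?_ hp)
  intro b hb
  rcases hb with hb | hb
  · exact ⟨0, by norm_num, by simpa using hb⟩
  · exact ⟨1, by norm_num, by simpa using hb⟩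

theorem pf_EQV : T_EQV.{u} := by
  intro κ hκ
  refine ⟨fun X h => ?_, fun X Y h h' => h (pos_mono (fun b hb => ?_) h'),
    fun X Y Z h1 h2 h3 => ?_, fun X Y h h' => ?_⟩
  · refine not_pos_empty hκ (pos_mono ?_ h)
    intro b hb
    exact hb Iff.rfl
  · intro h1
    exact hb h1.symm
  · refine not_pos_union hκ h1 h2 (pos_mono ?_ h3)
    intro b hb
    by_cases hxy : b ∈ X ↔ b ∈ Y
    · right
      intro hyz
      exact hb (hxy.trans hyz)
    · left
      exact hxy
  · have hlim : IsSuccLimit κ := Ordinal.one_lt_cof_iff.1 (Cardinal.one_lt_aleph0.trans hκ)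
    have hC : Clb κ Set.univ :=
      ⟨fun a ha => ⟨Order.succ a, hlim.succ_lt ha, Order.lt_succ a, trivial⟩,
        fun _ _ _ _ => trivial⟩
    obtain ⟨b, h1, -, h3, -⟩ := h' _ hC
    exact h3 (h b h1)

end Pool.Agent.H90.SD
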