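import Pool.Agent.H98.SD.TargetsM
import Pool.Agent.H90.SD.EQV

/-!
Row EQM of the board sd2: equality up to a null set is an equivalence, all cofinalities.
-/

set_option autoImplicit false

open Ordinal Cardinal Order Set
open scoped ZFSet

universe u

namespace Pool.Agent.H90.SD

open _root_.HD _root_.HD.SD

theorem pf_EQM : T_EQM.{u} := by
  intro μ κ hκ
  refine ⟨fun X h => ?_, fun X Y h h' => h (pos_mono (fun b hb => ?_) h'),
    fun X Y Z h1 h2 h3 => ?_, fun X Y h h' => ?_⟩
  · refine not_pos_empty hκ (pos_mono ?_ h)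
    intro b hb
    exact hb Iff.rfl
  · intro h1
    exact hb h1.symm
  · refine not_pos_union hκ h1 h2 (pos_mono ?_ h3)
    intro b hb
    by_cases hxy : b ∈ X ↔ b ∈ Y
    · right
      intro hyz
      exact hb (hxy.trans hyz)
    · left
      exact hxy
  · have hlim : IsSuccLimit κ := Ordinal.one_lt_cof_iff.1 (Cardinal.one_lt_aleph0.trans hκ)
    have hC : Clb κ Set.univ :=
      ⟨fun a ha => ⟨Order.succ a, hlim.succ_lt ha, Order.lt_succ a, trivial⟩,
        fun _ _ _ _ => trivial⟩
    obtain ⟨b, h1, -, h3, -⟩ := h' _ hC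
    exact h3 (h b h1)

end Pool.Agent.H90.SD
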