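import Pool.Agent.H98.SD.Targets

/-!
Row MAX of the board sd2: maximal families of inequivalent objects.
-/

set_option autoImplicit false

open Ordinal Cardinal Order Set
open scoped ZFSet

universe u

namespace Pool.Agent.H90.SD

open _root_.HD _root_.HD.SD

/-- the family which is defined by recursion -/
noncomputable def fam {α : Type (u + 1)} [Nonempty α] (r : α → α → Prop)
    (i : Ordinal.{u}) : α :=
  Classical.epsilon fun a => ∀ k : Set.Iio i, ¬ r a (fam r k.1)
termination_by i
decreasing_by exact k.2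

theorem pf_MAX : T_MAX.{u} := by
  intro α _ r ν
  by_cases h : ∀ i < ν, ∃ a, ∀ k : Set.Iio i, ¬ r a (fam r k.1)
  · left
    refine ⟨fam r, fun i hi k hk => ?_⟩
    have h1 := Classical.epsilon_spec (h i hi)
    have h2 : fam r i = Classical.epsilon fun a => ∀ k : Set.Iio i, ¬ r a (fam r k.1) := by
      rw [fam]
    rw [← h2] at h1
    exact h1 ⟨k, hk⟩
  · right
    push Not at h
    obtain ⟨τ, hτ, h⟩ := h
    refine ⟨τ, hτ, fam r, fun a => ?_⟩
    obtain ⟨k, hk⟩ := h a
    exact ⟨k.1, k.2, hk⟩

end Pool.Agent.H90.SD
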