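import Pool.Agent.H98.SD.Targets
import Pool.Agent.H7.HD.All

/-!
Row FWB of the board sd2: the number of disjoint positive sets.
-/

set_option autoImplicit false

open Ordinal Cardinal Order Set
open scoped ZFSet

universe u

namespace Pool.Agent.H90.SD

open _root_.HD _root_.HD.SD

theorem pf_FWB : T_FWB.{u} := by
  intro β hβ X hX
  have hlim : IsSuccLimit β := Ordinal.one_lt_cof_iff.1 (Cardinal.one_lt_aleph0.trans hβ)
  obtain ⟨B, hB, -, e, he⟩ := _root_.HD.All.vg β hlim
  refine ⟨β.cof.ord, Cardinal.ord_lt_ord.2 (Order.lt_succ _),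
    fun a => Classical.epsilon fun i => e a ∈ X i, fun i hi => ?_⟩
  obtain ⟨b, -, hbB, hbs, -⟩ := hi B hB
  obtain ⟨a, ha, hab⟩ := he b hbB
  refine ⟨a, ha, ?_⟩
  have h1 : e a ∈ X i := by rw [hab]; exact hbs
  have h2 : e a ∈ X (Classical.epsilon fun i => e a ∈ X i) :=
    Classical.epsilon_spec (p := fun i => e a ∈ X i) ⟨i, h1⟩
  exact hX _ _ (e a) h2 h1

end Pool.Agent.H90.SD
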